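import Mathlib

set_option autoImplicit false

namespace Pool.Agent.Results.MP_f10258_co.Compact

open Metric Set Filter

/-- `X` lies inside and `Y` outside a sphere of radius at most one. -/
def Sep {d : ℕ} (X Y : Set (EuclideanSpace ℝ (Fin d))) : Prop :=
  ∃ c r, 0 < r ∧ r ≤ 1 ∧ X ⊆ ball c r ∧ Y ⊆ (closedBall c r)ᶜ

noncomputable def F {d : ℕ} (x : EuclideanSpace ℝ (Fin d)) (p : EuclideanSpace ℝ (Fin d) × ℝ) : ℝ :=
  ‖x‖ ^ 2 - 2 * inner ℝ x p.1 - p.2

theorem F_eq {d : ℕ} (x : EuclideanSpace ℝ (Fin d)) (p : EuclideanSpace ℝ (Fin d) × ℝ) :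
    F x p = dist x p.1 ^ 2 - (‖p.1‖ ^ 2 + p.2) := by
  rw [F, dist_eq_norm, norm_sub_sq_real]; ring

theorem result (d : ℕ) (hd : 1 ≤ d) (A B : Set (EuclideanSpace ℝ (Fin d))) (hA : IsCompact A)
    (hB : IsCompact B) : Sep A B ↔ ∀ T : Finset (EuclideanSpace ℝ (Fin d)), ↑T ⊆ A ∪ B →
      T.card ≤ d + 2 → Sep (↑T ∩ A) (↑T ∩ B) := by
  classical
  refine ⟨fun ⟨c, r, h1, h2, h3, h4⟩ T _ _ =>
    ⟨c, r, h1, h2, inter_subset_right.trans h3, inter_subset_right.trans h4⟩, fun h => ?_⟩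
  rcases A.eq_empty_or_nonempty with rfl | ⟨a0, ha0⟩
  · obtain ⟨R, hR0, hR⟩ := hB.isBounded.subset_closedBall_lt 0 0
    refine ⟨EuclideanSpace.single ⟨0, hd⟩ (R + 2), 1, one_pos, le_rfl, empty_subset _,
      fun x hx h1 => ?_⟩
    have h2 := dist_triangle_left (EuclideanSpace.single ⟨0, hd⟩ (R + 2)) 0 x
    have h3 := mem_closedBall.mp (hR hx)
    have h4 := mem_closedBall.mp h1
    rw [dist_zero_right, PiLp.norm_single, Real.norm_of_nonneg (by linarith)] at h2
    linarith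
  have cF : ∀ p, Continuous fun x : EuclideanSpace ℝ (Fin d) => F x p := fun p => by
    unfold F; fun_prop
  let V : ℕ → Set (Fin (d + 2) → EuclideanSpace ℝ (Fin d)) := fun n =>
    ⋃ p ∈ {p : EuclideanSpace ℝ (Fin d) × ℝ | ‖p.1‖ ^ 2 + p.2 ≤ 1}, ⋂ i,
      (fun T => T i) ⁻¹' ((Aᶜ ∪ {x | F x p < -(1 / ((n : ℝ) + 1))}) ∩
        (Bᶜ ∪ {x | 1 / ((n : ℝ) + 1) < F x p}))
  have hV : ∀ n T, T ∈ V n ↔ ∃ p : EuclideanSpace ℝ (Fin d) × ℝ, ‖p.1‖ ^ 2 + p.2 ≤ 1 ∧ ∀ i,
      (T i ∈ A → F (T i) p < -(1 / ((n : ℝ) + 1))) ∧ (T i ∈ B → 1 / ((n : ℝ) + 1) < F (T i) p) := by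
    intro n T
    simp only [V, mem_iUnion, mem_iInter, mem_preimage, mem_inter_iff, mem_union, mem_compl_iff,
      mem_ofPred_eq, exists_prop, imp_iff_not_or]
  obtain ⟨n, hn⟩ := (isCompact_univ_pi fun _ : Fin (d + 2) => hA.union hB).elim_directed_cover V
    (fun n => isOpen_biUnion fun p _ => isOpen_iInter_of_finite fun i =>
      ((hA.isClosed.isOpen_compl.union (isOpen_lt (cF p) continuous_const)).inter
        (hB.isClosed.isOpen_compl.union (isOpen_lt continuous_const (cF p)))).preimage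
        (continuous_apply i))
    (by
      intro T hT
      obtain ⟨c, r, h1, h2, h3, h4⟩ := h (Finset.univ.image T)
        (by simpa [range_subset_iff] using hT) (Finset.card_image_le.trans (by simp))
      have e : ∀ x, F x (c, r ^ 2 - ‖c‖ ^ 2) = dist x c ^ 2 - r ^ 2 := fun x => by
        rw [F_eq]; simp
      have t := tendsto_one_div_add_atTop_nhds_zero_nat (𝕜 := ℝ)
      have : ∀ᶠ n : ℕ in atTop, ∀ i, (T i ∈ A → F (T i) (c, r ^ 2 - ‖c‖ ^ 2) <
          -(1 / ((n : ℝ) + 1))) ∧ (T i ∈ B → 1 / ((n : ℝ) + 1) < F (T i) (c, r ^ 2 - ‖c‖ ^ 2)) := by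
        simp only [eventually_all, eventually_and, e]
        refine fun i => ⟨fun hi => ?_, fun hi => ?_⟩
        · have := mem_ball.mp (h3 ⟨by simp, hi⟩)
          have h5 : 0 < r ^ 2 - dist (T i) c ^ 2 := by nlinarith [dist_nonneg (x := T i) (y := c)]
          exact (t.eventually (gt_mem_nhds h5)).mono fun n hn => by linarith
        · have := not_le.mp (mem_closedBall.not.mp (h4 ⟨by simp, hi⟩))
          exact t.eventually (gt_mem_nhds (by nlinarith))
      obtain ⟨n, hn⟩ := this.exists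
      exact mem_iUnion.mpr ⟨n, (hV n T).mpr ⟨_, by simp only; nlinarith, hn⟩⟩)
    (Monotone.directed_le fun m n hmn T hT => by
      obtain ⟨p, h1, h2⟩ := (hV m T).mp hT
      have := Nat.one_div_le_one_div (α := ℝ) hmn
      exact (hV n T).mpr ⟨p, h1, fun i => ⟨fun hi => by linarith [(h2 i).1 hi],
        fun hi => by linarith [(h2 i).2 hi]⟩⟩)
  have hδ : 0 < 1 / ((n : ℝ) + 1) := Nat.one_div_pos_of_nat
  simp only [subset_def, hV] at hn
  generalize 1 / ((n : ℝ) + 1) = δ at hn hδ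
  let C : EuclideanSpace ℝ (Fin d) → Set (EuclideanSpace ℝ (Fin d) × ℝ) := fun x =>
    {p | ‖p.1‖ ^ 2 + p.2 ≤ 1 ∧ (x ∈ A → F x p ≤ -δ) ∧ (x ∈ B → δ ≤ F x p)}
  have c1 : ∀ x, IsClosed (C x) := by
    intro x
    have : Continuous (F x) := by unfold F; fun_prop
    exact (isClosed_le (f := fun p : EuclideanSpace ℝ (Fin d) × ℝ => ‖p.1‖ ^ 2 + p.2)
      (by fun_prop) continuous_const).inter
      ((isClosed_imp isOpen_const (isClosed_le this continuous_const)).inter
        (isClosed_imp isOpen_const (isClosed_le continuous_const this)))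
  have c2 : ∀ x, Convex ℝ (C x) := by
    rintro x p ⟨p1, p2, p3⟩ q ⟨q1, q2, q3⟩ a b ha hb hab
    have e : F x (a • p + b • q) = a * F x p + b * F x q := by
      simp only [F, Prod.fst_add, Prod.snd_add, Prod.smul_fst, Prod.smul_snd, inner_add_right,
        inner_smul_right, smul_eq_mul]
      linear_combination (-‖x‖ ^ 2) * hab
    refine ⟨?_, fun hx => ?_, fun hx => ?_⟩
    · have h1 : ‖(a • p + b • q).1‖ ≤ a * ‖p.1‖ + b * ‖q.1‖ := by
        refine (norm_add_le _ _).trans ?_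
        simp [norm_smul, abs_of_nonneg ha, abs_of_nonneg hb]
      have h2 := pow_le_pow_left₀ (norm_nonneg _) h1 2
      simp only [Prod.snd_add, Prod.smul_snd, smul_eq_mul]
      obtain rfl : b = 1 - a := by linarith
      nlinarith [mul_nonneg (mul_nonneg ha hb) (sq_nonneg (‖p.1‖ - ‖q.1‖)),
        mul_le_mul_of_nonneg_left p1 ha, mul_le_mul_of_nonneg_left q1 hb]
    · rw [e]; nlinarith [mul_le_mul_of_nonneg_left (p2 hx) ha, mul_le_mul_of_nonneg_left (q2 hx) hb]
    · rw [e]; nlinarith [mul_le_mul_of_nonneg_left (p3 hx) ha, mul_le_mul_of_nonneg_left (q3 hx) hb]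
  have c3 : IsCompact (C a0) := by
    refine ((isCompact_closedBall a0 1).prod
      (isCompact_Icc (a := -(‖a0‖ + 1) ^ 2) (b := 1))).of_isClosed_subset (c1 a0) ?_
    rintro p ⟨h1, h2, -⟩
    have h3 := h2 ha0
    rw [F_eq] at h3
    have h4 : dist a0 p.1 ≤ 1 := by nlinarith [dist_nonneg (x := a0) (y := p.1)]
    have h5 := norm_le_norm_add_norm_sub a0 p.1
    rw [← dist_eq_norm] at h5
    refine ⟨mem_closedBall'.mpr h4, ?_, by nlinarith⟩
    nlinarith [norm_nonneg p.1, sq_nonneg (dist a0 p.1)]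
  obtain ⟨p, hp0, hp⟩ := c3.inter_iInter_nonempty C c1 fun u => by
    rw [← Finset.set_biInter_insert]
    refine Convex.helly_theorem' (𝕜 := ℝ) (fun x _ => c2 x) fun I _ hI => ?_
    let l := (I.filter (· ∈ A ∪ B)).toList
    obtain ⟨p, h1, h2⟩ := hn (fun i => l.getD i a0) fun i _ => by
      by_cases e : i.val < l.length
      · simp only [List.getD_eq_getElem _ _ e]
        exact (Finset.mem_filter.mp (Finset.mem_toList.mp (List.getElem_mem e))).2
      · simp only [List.getD_eq_default _ _ (not_lt.mp e)]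
        exact Or.inl ha0
    refine ⟨p, mem_iInter₂.mpr fun x hx => ?_⟩
    by_cases e : x ∈ A ∪ B
    · obtain ⟨i, hi, rfl⟩ := List.mem_iff_getElem.mp
        (show x ∈ l from Finset.mem_toList.mpr (Finset.mem_filter.mpr ⟨hx, e⟩))
      have h3 : l.length ≤ d + 2 := by
        rw [Finset.length_toList]
        exact (Finset.card_filter_le _ _).trans (by simpa using hI)
      have := h2 ⟨i, by omega⟩
      simp only [List.getD_eq_getElem _ _ hi] at this
      exact ⟨h1, fun h => (this.1 h).le, fun h => (this.2 h).le⟩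
    · exact ⟨h1, fun h => absurd (Or.inl h) e, fun h => absurd (Or.inr h) e⟩
  have h3 := hp0.2.1 ha0
  rw [F_eq] at h3
  have h4 : 0 < ‖p.1‖ ^ 2 + p.2 := by nlinarith [sq_nonneg (dist a0 p.1)]
  refine ⟨p.1, √(‖p.1‖ ^ 2 + p.2), Real.sqrt_pos.mpr h4, Real.sqrt_le_one.mpr hp0.1, fun x hx => ?_,
    fun x hx h5 => ?_⟩
  · have := (mem_iInter.mp hp x).2.1 hx
    rw [F_eq] at this
    exact Real.lt_sqrt_of_sq_lt (by linarith)
  · have := (mem_iInter.mp hp x).2.2 hx
    rw [F_eq] at this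
    have h6 := (Real.le_sqrt dist_nonneg h4.le).mp (mem_closedBall.mp h5)
    linarith

end Pool.Agent.Results.MP_f10258_co.Compact
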